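import Mathlib
import Pool.Agent.Helper58_MOO.Stmts

/-!
EXL: the extraction lemma.
-/

open Cardinal
open Pool.Agent.Helper69_LOTS

namespace Pool.Agent.MOO.H63

open Node

/-- Types. -/
abbrev Ty : Type := Finset Node × Finset (Finset Om) × Node

/-- The members of `𝒢` of a type. -/
structure InG (T : Set Node) (𝒢 : Set (Finset Node)) (y : Ty) (X : Finset Node) (t : Node) :
    Prop where
  mem : X ∈ 𝒢
  tT : t ∈ T
  tau : y.2.2 ≤ t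
  ht : y.2.2.ht < t.ht
  low : ∀ x, x ∈ y.1 ↔ x ∈ X ∧ x.ht < t.ht
  orb : tr (X : Set Node) t.ht = orb y.2.1 t
  bel : Below y.2.1 y.2.2.ht

/-- The tree of a type. -/
def Bt (T Q : Set Node) (𝒢 : Set (Finset Node)) (y : Ty) : Set Node :=
  {s | s ∈ T ∧ (∃ X t, InG T 𝒢 y X t ∧ s ≤ t) ∧
    ∀ X t, InG T 𝒢 y X t → ∀ w, Mt w s t → ∃ g ∈ y.2.1, flip g w ∈ Q}

theorem Bt_tree {T Q : Set Node} {𝒢 : Set (Finset Node)} {y : Ty} (hT : IsTree T) :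
    IsTree (Bt T Q 𝒢 y) := by
  rintro s ⟨h1, ⟨X, t, h2, h3⟩, h4⟩ ξ
  exact ⟨hT s h1 ξ, ⟨X, t, h2, (res_le s ξ).trans h3⟩,
    fun X t h5 w h6 => h4 X t h5 w (h6.mono (res_le s ξ) le_rfl)⟩

theorem Bt_mts {T Q : Set Node} {𝒢 : Set (Finset Node)} {y : Ty} :
    ∀ w ∈ mts (Bt T Q 𝒢 y), ∃ g ∈ y.2.1, flip g w ∈ Q := by
  rintro w ⟨s, hs, s', ⟨-, ⟨X, t, h2, h3⟩, -⟩, hw⟩
  exact hs.2.2 X t h2 w (hw.mono le_rfl h3)

theorem Bt_up {T Q : Set Node} {𝒢 : Set (Finset Node)} {y : Ty} :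
    ∀ s ∈ Bt T Q 𝒢 y, ∀ g ∈ y.2.1, ∃ X' ∈ 𝒢, ∃ x ∈ X', flip g s ≤ x := by
  rintro s ⟨-, ⟨X, t, h2, h3⟩, -⟩ g hg
  have h5 : flip g t ∈ tr (X : Set Node) t.ht := by
    rw [h2.orb]
    exact ⟨g, hg, rfl⟩
  obtain ⟨x, hx, -, h7⟩ := h5
  refine ⟨X, h2.mem, x, hx, (flip_mono h3).trans ?_⟩
  rw [h7]
  exact res_le x _

/-- The types whose entries have heights below `δ`. -/
def TyB (T : Set Node) (δ : Om) : Set Ty :=
  {y | (∀ x ∈ y.1, x ∈ T ∧ x.ht < δ) ∧ Below y.2.1 δ ∧ y.2.2 ∈ T ∧ y.2.2.ht < δ}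

theorem lev_lt_countable {T : Set Node} (hT : ∀ δ, {s | s ∈ T ∧ s.ht = δ}.Countable) (δ : Om) :
    {s | s ∈ T ∧ s.ht < δ}.Countable := by
  refine ((Om_Iio_countable δ).biUnion (fun ξ _ => hT ξ)).mono ?_
  rintro s ⟨h1, h2⟩
  exact Set.mem_biUnion (x := s.ht) h2 ⟨h1, rfl⟩

theorem finset_countable {α : Type} {A : Set α} (hA : A.Countable) :
    {F : Finset α | ∀ x ∈ F, x ∈ A}.Countable := by
  classical
  have : Countable A := hA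
  refine (Set.countable_range (fun F : Finset A => F.image Subtype.val)).mono ?_
  intro F hF
  refine ⟨F.attach.image (fun x => ⟨x.1, hF x.1 x.2⟩), ?_⟩
  ext x
  simp only [Finset.mem_image, Finset.mem_attach, true_and, Subtype.exists]
  constructor
  · rintro ⟨a, ha, ⟨b, hb, h1⟩, h2⟩
    have h3 : b = a := congrArg Subtype.val h1
    rw [← h2, ← h3]
    exact hb
  · intro hx
    exact ⟨x, hF x hx, ⟨x, hx, rfl⟩, rfl⟩

theorem TyB_countable {T : Set Node} (hT : ∀ δ, {s | s ∈ T ∧ s.ht = δ}.Countable) (δ : Om) :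
    (TyB T δ).Countable := by
  have h1 := finset_countable (lev_lt_countable hT δ)
  have h2 := finset_countable (finset_countable (Om_Iio_countable δ))
  refine (h1.prod (h2.prod (lev_lt_countable hT δ))).mono ?_
  rintro ⟨R, h, τ⟩ ⟨h3, h4, h5, h6⟩
  exact ⟨h3, fun g hg ξ hξ => h4 g hg ξ hξ, h5, h6⟩

/-- Enumeration of a union of an increasing family of countable sets. -/
theorem exists_enum {α : Type} [Nonempty α] (A : Om → Set α) (hA : ∀ δ, (A δ).Countable) :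
    ∃ (e : Om → α) (C : Set Om), Clb C ∧ ∀ δ ∈ C, ∀ ξ, ξ < δ → ∀ a ∈ A ξ, ∃ σ, σ < δ ∧ e σ = a := by
  classical
  have h1 : ∀ ξ, ∃ g : ℕ → α, A ξ ⊆ Set.range g := by
    intro ξ
    by_cases hne : (A ξ).Nonempty
    · obtain ⟨g, hg⟩ := (hA ξ).exists_eq_range hne
      exact ⟨g, hg.le⟩
    · rw [Set.not_nonempty_iff_eq_empty] at hne
      rw [hne]
      exact ⟨fun _ => Classical.arbitrary α, Set.empty_subset _⟩
  choose g hg using h1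
  have h2 : #(Om × ℕ) = #Om := by
    rw [Cardinal.mk_prod, mk_Om]
    simp only [Cardinal.lift_id, Cardinal.mk_nat]
    exact Cardinal.mul_aleph0_eq Cardinal.aleph0_lt_aleph_one.le
  obtain ⟨p⟩ := Cardinal.eq.1 h2
  let e : Om → α := fun σ => g (p.symm σ).1 (p.symm σ).2
  have h3 : CM (fun M : Set Om => ∀ n : ℕ, ∀ ξ, id ξ ∈ M → (∃ σ, e σ = g ξ n) →
      ∃ σ, id σ ∈ M ∧ e σ = g ξ n) :=
    CM.all (fun n => CM.skolem1 (k := id) Function.injective_id (fun ξ σ => e σ = g ξ n))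
  obtain ⟨C, hC, h4⟩ := h3.clb
  refine ⟨e, C, hC, fun δ hδ ξ hξ a ha => ?_⟩
  obtain ⟨n, rfl⟩ := hg ξ ha
  obtain ⟨σ, hσ, h5⟩ := h4 δ hδ n ξ hξ ⟨p (ξ, n), by simp [e]⟩
  exact ⟨σ, hσ, h5⟩

theorem finset_bdd {δ : Om} (hδ : IsLim δ) (F : Finset Om) (hF : ∀ ξ ∈ F, ξ < δ) :
    ∃ ζ, ζ < δ ∧ ∀ ξ ∈ F, ξ < ζ := by
  classical
  induction F using Finset.induction_on with
  | empty =>
    obtain ⟨ζ, hζ⟩ := hδ.1
    exact ⟨ζ, hζ, by simp⟩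
  | insert a F _ ih =>
    obtain ⟨ζ, hζ, h1⟩ := ih (fun ξ hξ => hF ξ (Finset.mem_insert_of_mem hξ))
    obtain ⟨η, hη, h2⟩ := hδ.2 (max ζ a) (max_lt hζ (hF a (Finset.mem_insert_self _ _)))
    refine ⟨η, h2, fun ξ hξ => ?_⟩
    rcases Finset.mem_insert.1 hξ with rfl | hξ
    · exact (le_max_right _ _).trans_lt hη
    · exact (h1 ξ hξ).trans ((le_max_left _ _).trans_lt hη)

/-- Flips with supports below the height are determined by their actions. -/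
theorem flip_ne {g g' : Finset Om} {τ : Node} (hg : ∀ ξ ∈ g, ξ < τ.ht) (hg' : ∀ ξ ∈ g', ξ < τ.ht)
    (hne : g ≠ g') : flip g τ ≠ flip g' τ := by
  intro h
  apply hne
  ext ξ
  by_cases hξ : ξ < τ.ht
  · have h1 : (flip g τ).val ξ = (flip g' τ).val ξ := by rw [h]
    rw [flip_val hξ, flip_val hξ] at h1
    by_cases h2 : ξ ∈ g <;> by_cases h3 : ξ ∈ g' <;> simp [h2, h3] at h1 ⊢
  · exact ⟨fun h2 => absurd (hg ξ h2) hξ, fun h2 => absurd (hg' ξ h2) hξ⟩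

theorem exists_flip {T : Set Node} (hT : Coh T) {s t : Node} (hs : s ∈ T) (ht : t ∈ T)
    (h : s.ht = t.ht) : ∃ g : Finset Om, (∀ ξ ∈ g, ξ < t.ht) ∧ s = flip g t := by
  classical
  refine ⟨(hT.fin s hs t ht h).toFinset, fun ξ hξ => ?_, ?_⟩
  · rw [Set.Finite.mem_toFinset] at hξ
    by_contra h1
    exact hξ (by rw [s.supp ξ (by rw [h]; exact not_lt.1 h1), t.supp ξ (not_lt.1 h1)])
  · refine Node.ext h (funext fun ξ => ?_)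
    by_cases hξ : ξ < t.ht
    · rw [flip_val hξ]
      by_cases h2 : s.val ξ = t.val ξ
      · simp [h2]
      · have h3 : decide (ξ ∈ (hT.fin s hs t ht h).toFinset) = true := by simp [h2]
        rw [h3]
        cases h4 : s.val ξ <;> cases h5 : t.val ξ <;> simp_all
    · rw [s.supp ξ (by rw [h]; exact not_lt.1 hξ),
        (Node.flip _ t).supp ξ (by rw [flip_ht]; exact not_lt.1 hξ)]

/-- The trace is an orbit. -/
theorem tr_orb {T : Set Node} (hT : Coh T) {X : Finset Node} (hX : ∀ x ∈ X, x ∈ T) {δ : Om}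
    (hδ : IsLim δ) (h : ∃ x ∈ X, δ ≤ x.ht) :
    ∃ hh : Finset (Finset Om), ∃ t ∈ T, hh.Nonempty ∧ (∃ ζ, ζ < δ ∧ Below hh ζ) ∧ t.ht = δ ∧
      tr (X : Set Node) δ = orb hh t := by
  classical
  obtain ⟨x₀, hx₀, h1⟩ := h
  let t : Node := x₀.res δ
  have htT : t ∈ T := hT.down _ (hX x₀ hx₀) δ
  have htht : t.ht = δ := res_ht_of_le h1
  have h2 : ∀ x : Node, ∃ g : Finset Om, x ∈ X → δ ≤ x.ht → (∀ ξ ∈ g, ξ < δ) ∧
      x.res δ = flip g t := by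
    intro x
    by_cases hx : x ∈ X ∧ δ ≤ x.ht
    · obtain ⟨g, hg, hg'⟩ := exists_flip hT (hT.down _ (hX x hx.1) δ) htT
        (by rw [htht]; exact res_ht_of_le hx.2)
      exact ⟨g, fun _ _ => ⟨by rw [← htht]; exact hg, hg'⟩⟩
    · exact ⟨∅, fun h3 h4 => absurd ⟨h3, h4⟩ hx⟩
  choose g hg using h2
  let hh : Finset (Finset Om) := (X.filter (fun x => δ ≤ x.ht)).image g
  have hmem : ∀ k, k ∈ hh ↔ ∃ x, (x ∈ X ∧ δ ≤ x.ht) ∧ g x = k := by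
    intro k
    simp only [hh, Finset.mem_image, Finset.mem_filter]
  refine ⟨hh, t, htT, ⟨g x₀, (hmem _).2 ⟨x₀, ⟨hx₀, h1⟩, rfl⟩⟩, ?_, htht, ?_⟩
  · obtain ⟨ζ, hζ, h3⟩ := finset_bdd hδ (hh.biUnion id) (by
      intro ξ hξ
      obtain ⟨k, hk, hξk⟩ := Finset.mem_biUnion.1 hξ
      obtain ⟨x, hx, rfl⟩ := (hmem k).1 hk
      exact (hg x hx.1 hx.2).1 ξ hξk)
    exact ⟨ζ, hζ, fun k hk ξ hξ => h3 ξ (Finset.mem_biUnion.2 ⟨k, hk, hξ⟩)⟩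
  · ext s
    constructor
    · rintro ⟨x, hx, hxδ, rfl⟩
      exact ⟨g x, (hmem _).2 ⟨x, ⟨hx, hxδ⟩, rfl⟩, (hg x hx hxδ).2⟩
    · rintro ⟨k, hk, rfl⟩
      obtain ⟨x, hx, rfl⟩ := (hmem k).1 hk
      exact ⟨x, hx.1, hx.2, (hg x hx.1 hx.2).2.symm⟩

/-- The main combinatorial argument. -/
theorem key {T Q : Set Node} {𝒢 : Set (Finset Node)}
    (hQ : ∀ X ∈ 𝒢, ∀ w ∈ mts (X : Set Node), w ∉ Q)
    (hinc : ∀ X ∈ 𝒢, ∀ Y ∈ 𝒢, X ≠ Y → ∃ w ∈ Q, ∃ x ∈ X, ∃ y ∈ Y, Mt w x y)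
    {y : Ty} {X X' : Finset Node} {t t' s w : Node} (h : InG T 𝒢 y X t) (h' : InG T 𝒢 y X' t')
    (hlow : ∀ x ∈ X', x.ht < t.ht) (hne : ∃ x ∈ X, t.ht ≤ x.ht) (hs : s ≤ t) (hw : Mt w s t')
    (hwQ : ∀ g ∈ y.2.1, flip g w ∉ Q) : False := by
  have hXX : X ≠ X' := by
    rintro rfl
    obtain ⟨x, hx, h1⟩ := hne
    exact absurd (hlow x hx) (not_lt.2 h1)
  obtain ⟨w₀, hw₀, x, hx, x', hx', hm⟩ := hinc X h.mem X' h'.mem hXX
  have hxt : t.ht ≤ x.ht := by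
    by_contra h1
    have h2 : x ∈ X' := ((h'.low x).1 ((h.low x).2 ⟨hx, not_le.1 h1⟩)).1
    exact hQ X' h'.mem w₀ ⟨x, h2, x', hx', hm⟩ hw₀
  have hxt' : t'.ht ≤ x'.ht := by
    by_contra h1
    have h2 : x' ∈ X := ((h.low x').1 ((h'.low x').2 ⟨hx', not_le.1 h1⟩)).1
    exact hQ X h.mem w₀ ⟨x, hx, x', h2, hm⟩ hw₀
  have h3 : x.res t.ht ∈ orb y.2.1 t := by
    rw [← h.orb]
    exact ⟨x, hx, hxt, rfl⟩
  have h3' : x'.res t'.ht ∈ orb y.2.1 t' := by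
    rw [← h'.orb]
    exact ⟨x', hx', hxt', rfl⟩
  obtain ⟨g, hg, h4⟩ := h3
  obtain ⟨g', hg', h4'⟩ := h3'
  have h5 : flip g t ≤ x := by rw [← h4]; exact res_le _ _
  have h5' : flip g' t' ≤ x' := by rw [← h4']; exact res_le _ _
  by_cases hgg : g = g'
  · subst hgg
    have h6 : Mt (flip g w) x x' := ((hw.mono hs le_rfl).flip g).mono h5 h5'
    rw [← h6.unique hm] at hw₀
    exact hwQ g hg hw₀
  · have h7 : Inc (flip g y.2.2) (flip g' y.2.2) :=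
      inc_of_ht_eq rfl (flip_ne (h.bel g hg) (h.bel g' hg') hgg)
    obtain ⟨v, hv⟩ := h7.exists_mt
    have h8 : Mt v x x' := hv.mono ((flip_mono h.tau).trans h5) ((flip_mono h'.tau).trans h5')
    have h9 : flip g' t ∈ tr (X : Set Node) t.ht := by
      rw [h.orb]
      exact ⟨g', hg', rfl⟩
    obtain ⟨z, hz, -, h10⟩ := h9
    have h11 : flip g' t ≤ z := by rw [h10]; exact res_le _ _
    have h12 : Mt v x z := hv.mono ((flip_mono h.tau).trans h5) ((flip_mono h.tau).trans h11)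
    rw [hm.unique h8] at hw₀
    exact hQ X h.mem v ⟨x, hx, z, hz, h12⟩ hw₀

theorem exl : ExlStmt := by
  classical
  intro T hT Q 𝒢 hGT hGQ hG
  have hne : Nonempty Ty := by
    obtain ⟨s, hs⟩ := hT.ne
    exact ⟨(∅, ∅, s)⟩
  obtain ⟨e, C₁, hC₁, he⟩ := exists_enum (TyB T) (TyB_countable hT.lev)
  -- bad pairs
  let Bad : Ty → Node → Finset Node → Node → Prop := fun y s X t =>
    InG T 𝒢 y X t ∧ ∃ w, Mt w s t ∧ ∀ g ∈ y.2.1, flip g w ∉ Q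
  have hR : CM (fun M : Set Om => ∀ σ ξ, id σ ∈ M → id ξ ∈ M →
      (∃ β, ∀ s ∈ T, s.ht = ξ → (∃ X t, Bad (e σ) s X t) →
        ∃ X t, Bad (e σ) s X t ∧ t.ht < β ∧ ∀ x ∈ X, x.ht < β) →
      ∃ β, id β ∈ M ∧ ∀ s ∈ T, s.ht = ξ → (∃ X t, Bad (e σ) s X t) →
        ∃ X t, Bad (e σ) s X t ∧ t.ht < β ∧ ∀ x ∈ X, x.ht < β) :=
    CM.skolem2 (k := id) Function.injective_id Function.injective_id
      (fun σ ξ β => ∀ s ∈ T, s.ht = ξ → (∃ X t, Bad (e σ) s X t) →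
        ∃ X t, Bad (e σ) s X t ∧ t.ht < β ∧ ∀ x ∈ X, x.ht < β)
  have hU : CM (fun M : Set Om => ∀ σ, id σ ∈ M →
      (∃ β, ¬ ∃ s ∈ Bt T Q 𝒢 (e σ), s.ht = β) →
      ∃ β, id β ∈ M ∧ ¬ ∃ s ∈ Bt T Q 𝒢 (e σ), s.ht = β) :=
    CM.skolem1 (k := id) Function.injective_id (fun σ β => ¬ ∃ s ∈ Bt T Q 𝒢 (e σ), s.ht = β)
  obtain ⟨C₂, hC₂, h2⟩ := (hR.and hU).clb
  have hex : ∀ σ ξ, ∃ β, ∀ s ∈ T, s.ht = ξ → (∃ X t, Bad (e σ) s X t) →
      ∃ X t, Bad (e σ) s X t ∧ t.ht < β ∧ ∀ x ∈ X, x.ht < β := by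
    intro σ ξ
    have h3 : ∀ s : Node, ∃ (X : Finset Node) (t : Node), (∃ X t, Bad (e σ) s X t) →
        Bad (e σ) s X t := by
      intro s
      by_cases h4 : ∃ X t, Bad (e σ) s X t
      · obtain ⟨X, t, h5⟩ := h4
        exact ⟨X, t, fun _ => h5⟩
      · exact ⟨∅, s, fun h5 => absurd h5 h4⟩
    choose X t h3 using h3
    obtain ⟨β, hβ⟩ := Om_bdd (A := ⋃ s ∈ {s | s ∈ T ∧ s.ht = ξ},
      (insert (t s).ht (Node.ht '' (X s : Set Node)))) (by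
        refine (hT.lev ξ).biUnion (fun s _ => ?_)
        exact (((X s).finite_toSet.image _).countable).insert _)
    refine ⟨β, fun s hs hsξ h4 => ⟨X s, t s, h3 s h4, hβ _ ?_, fun x hx => hβ _ ?_⟩⟩
    · exact Set.mem_biUnion (x := s) ⟨hs, hsξ⟩ (Set.mem_insert _ _)
    · exact Set.mem_biUnion (x := s) ⟨hs, hsξ⟩ (Set.mem_insert_of_mem _ ⟨x, hx, rfl⟩)
  refine ⟨fun σ => Bt T Q 𝒢 (e σ), C₁ ∩ C₂ ∩ {δ | IsLim δ}, (hC₁.inter hC₂).inter Clb.lim, ?_⟩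
  rintro δ ⟨⟨hδ₁, hδ₂⟩, hδ⟩ X hX hXδ
  obtain ⟨hr, hu⟩ := h2 δ hδ₂
  obtain ⟨hh, t, htT, hhne, ⟨ζ₀, hζ₀, hbel₀⟩, htht, horb⟩ := tr_orb hT (hGT X hX) hδ hXδ
  obtain ⟨ζ, hζ, hζX⟩ := finset_bdd hδ (insert ζ₀ ((X.filter (fun x => x.ht < δ)).image Node.ht))
    (by
      intro ξ hξ
      rcases Finset.mem_insert.1 hξ with rfl | hξ
      · exact hζ₀
      · obtain ⟨x, hx, rfl⟩ := Finset.mem_image.1 hξ
        exact (Finset.mem_filter.1 hx).2)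
  have hζ' : ζ₀ < ζ := hζX _ (Finset.mem_insert_self _ _)
  have hbel : Below hh ζ := fun g hg ξ hξ => (hbel₀ g hg ξ hξ).trans hζ'
  have hτht : (t.res ζ).ht = ζ := res_ht_of_le (by rw [htht]; exact hζ.le)
  let y : Ty := (X.filter (fun x => x.ht < δ), hh, t.res ζ)
  obtain ⟨η, hζη, hηδ⟩ := hδ.2 ζ hζ
  have hy : y ∈ TyB T η := by
    refine ⟨fun x hx => ?_, fun g hg ξ hξ => (hbel g hg ξ hξ).trans hζη, hT.down _ htT _, ?_⟩
    · have hx' := Finset.mem_filter.1 hx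
      exact ⟨hGT X hX x hx'.1, (hζX _ (Finset.mem_insert_of_mem
        (Finset.mem_image_of_mem _ hx))).trans hζη⟩
    · change (t.res ζ).ht < η
      rw [hτht]
      exact hζη
  obtain ⟨σ, hσ, heσ⟩ := he δ hδ₁ η hηδ y hy
  have hIn : InG T 𝒢 (e σ) X t := by
    rw [heσ]
    refine ⟨hX, htT, res_le _ _, ?_, fun x => ?_, ?_, ?_⟩
    · change (t.res ζ).ht < t.ht
      rw [hτht, htht]
      exact hζ
    · rw [htht]
      exact Finset.mem_filter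
    · rw [htht]
      exact horb
    · change Below hh (t.res ζ).ht
      rw [hτht]
      exact hbel
  have hres : ∀ ξ, ξ < δ → t.res ξ ∈ Bt T Q 𝒢 (e σ) := by
    intro ξ hξ
    refine ⟨hT.down _ htT _, ⟨X, t, hIn, res_le _ _⟩, fun X₁ t₁ h3 w₁ h4 => ?_⟩
    by_contra hcon
    push Not at hcon
    have hξht : (t.res ξ).ht = ξ := res_ht_of_le (by rw [htht]; exact hξ.le)
    obtain ⟨β, hβ, h5⟩ := hr σ ξ hσ hξ (hex σ ξ)
    obtain ⟨X', t', ⟨h6, w, hw, hwQ⟩, h7, h8⟩ := h5 (t.res ξ) (hT.down _ htT _) hξht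
      ⟨X₁, t₁, h3, w₁, h4, hcon⟩
    refine key hGQ hG hIn h6 (fun x hx => ?_) ?_ (res_le t ξ) hw hwQ
    · rw [htht]
      exact (h8 x hx).trans hβ
    · rw [htht]
      exact hXδ
  refine ⟨σ, hσ, hh, t, htT, hhne, fun g hg ξ hξ => (hbel g hg ξ hξ).trans hζ, htht, horb, ?_, hres,
    ?_, ?_⟩
  · refine ⟨fun s hs => hs.1, Bt_tree hT.down, ?_⟩
    by_contra hcon
    push Not at hcon
    obtain ⟨α, hα⟩ := hcon
    obtain ⟨β, hβ, h3⟩ := hu σ hσ ⟨α, fun ⟨s, hs, h4⟩ => hα s hs h4⟩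
    exact h3 ⟨t.res β, hres β hβ, res_ht_of_le (by rw [htht]; exact (show β < δ from hβ).le)⟩
  · have := Bt_mts (T := T) (Q := Q) (𝒢 := 𝒢) (y := e σ)
    change ∀ w ∈ mts (Bt T Q 𝒢 (e σ)), ∃ g ∈ hh, flip g w ∈ Q
    rw [heσ] at this ⊢
    exact this
  · have := Bt_up (T := T) (Q := Q) (𝒢 := 𝒢) (y := e σ)
    change ∀ s ∈ Bt T Q 𝒢 (e σ), ∀ g ∈ hh, ∃ X' ∈ 𝒢, ∃ x ∈ X', flip g s ≤ x
    rw [heσ] at this ⊢
    exact this

end Pool.Agent.MOO.H63
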